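import Pool.Agent.Lib.MP_6bc78b_nt.MS.GL.Iface
import Pool.Agent.Lib.MP_6bc78b_nt.MS.QZ.H76.Lam

/-! Project MS, Part GL, module LA2: sums with two von Mangoldt functions. -/

set_option autoImplicit false

open Complex Filter Topology MeasureTheory ArithmeticFunction

namespace Pool.Agent.Lib.MP_6bc78b_nt.MS.GL.H15

open Pool.Agent.Lib.MP_6bc78b_nt.MS Pool.Agent.Lib.MP_6bc78b_nt.MS.P1
open Pool.Agent.Lib.MP_6bc78b_nt.MS.QZ Pool.Agent.Lib.MP_6bc78b_nt.MS.QZ.H76.Lam
open Pool.Agent.Lib.MP_6bc78b_nt.MS.GL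

namespace La2

lemma conv_nonneg (hV : VnuStatement) (S : Finset ℕ) (a n : ℕ) : 0 ≤ (La * pS S ^ a) n := by
  rw [ArithmeticFunction.mul_apply]
  exact Finset.sum_nonneg (fun x _ => mul_nonneg (La_nonneg _) (pS_pow_nonneg hV _ _ _))

/-- The convolution is at most `b!` times the sum of `log q` over the primes `q` dividing `n`. -/
lemma conv_le (hV : VnuStatement) (S : Finset ℕ) (b n : ℕ) (hn : n ≠ 0) :
    (La * pS S ^ b) n ≤ (b.factorial : ℝ) * ∑ q ∈ n.primeFactors, Real.log q := by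
  classical
  set F := n.divisorsAntidiagonal.filter (fun x => cardFactors x.2 = b ∧ IsPrimePow x.1) with hF
  have h1 : (La * pS S ^ b) n ≤ ∑ x ∈ F, (b.factorial : ℝ) * Real.log (x.1.minFac : ℕ) := by
    rw [ArithmeticFunction.mul_apply, hF, Finset.sum_filter]
    apply Finset.sum_le_sum
    intro x hx
    obtain ⟨hx1, -⟩ := Nat.mem_divisorsAntidiagonal.1 hx
    have hv0 : x.2 ≠ 0 := by
      intro h
      rw [h, mul_zero] at hx1
      exact hn hx1.symm
    have e1 : La x.1 = if IsPrimePow x.1 then Real.log (x.1.minFac : ℕ) else 0 :=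
      ArithmeticFunction.vonMangoldt_apply
    have e2 := hV.1 S b x.2 hv0
    by_cases hp : IsPrimePow x.1
    · rw [if_pos hp] at e1
      by_cases hc : cardFactors x.2 = b
      · rw [if_pos ⟨hc, hp⟩, e1, mul_comm]
        have h0 : (0 : ℝ) ≤ Real.log (x.1.minFac : ℕ) := Real.log_natCast_nonneg _
        refine mul_le_mul_of_nonneg_right ?_ h0
        rw [e2]
        split_ifs
        · exact mul_le_of_le_one_right (Nat.cast_nonneg _) (nu_le_one _)
        · exact Nat.cast_nonneg _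
      · rw [if_neg (fun h => hc h.1), e2, if_neg (fun h => hc h.2), mul_zero]
    · rw [if_neg hp] at e1
      rw [e1, zero_mul, if_neg (fun h => hp h.2)]
  refine h1.trans ?_
  rw [← Finset.mul_sum]
  refine mul_le_mul_of_nonneg_left ?_ (Nat.cast_nonneg _)
  have hinj : Set.InjOn (fun x : ℕ × ℕ => x.1.minFac) (F : Set (ℕ × ℕ)) := by
    intro x hx x' hx' hxx
    rw [Finset.mem_coe, hF, Finset.mem_filter] at hx hx'
    obtain ⟨hx, hc, hp⟩ := hx
    obtain ⟨hx', hc', hp'⟩ := hx'
    obtain ⟨hm, -⟩ := Nat.mem_divisorsAntidiagonal.1 hx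
    obtain ⟨hm', -⟩ := Nat.mem_divisorsAntidiagonal.1 hx'
    have hxx' : x.1.minFac = x'.1.minFac := hxx
    have hu0 : x.1 ≠ 0 := by
      intro h
      rw [h, zero_mul] at hm
      exact hn hm.symm
    have hu0' : x'.1 ≠ 0 := by
      intro h
      rw [h, zero_mul] at hm'
      exact hn hm'.symm
    have hv0 : x.2 ≠ 0 := by
      intro h
      rw [h, mul_zero] at hm
      exact hn hm.symm
    have hv0' : x'.2 ≠ 0 := by
      intro h
      rw [h, mul_zero] at hm'
      exact hn hm'.symm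
    have f1 := hp.minFac_pow_factorization_eq
    have f2 := hp'.minFac_pow_factorization_eq
    have hq : x.1.minFac.Prime := Nat.minFac_prime hp.ne_one
    have hq' : x'.1.minFac.Prime := Nat.minFac_prime hp'.ne_one
    have c1 : cardFactors n = x.1.factorization x.1.minFac + b := by
      rw [← hm, ArithmeticFunction.cardFactors_mul hu0 hv0, hc]
      congr 1
      conv_lhs => rw [← f1]
      rw [ArithmeticFunction.cardFactors_apply_prime_pow hq]
    have c2 : cardFactors n = x'.1.factorization x'.1.minFac + b := by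
      rw [← hm', ArithmeticFunction.cardFactors_mul hu0' hv0', hc']
      congr 1
      conv_lhs => rw [← f2]
      rw [ArithmeticFunction.cardFactors_apply_prime_pow hq']
    have c3 : x.1.factorization x.1.minFac = x'.1.factorization x'.1.minFac := by omega
    have e1 : x.1 = x'.1 := by
      rw [← f1, ← f2, c3, hxx']
    have e2 : x.2 = x'.2 := by
      rw [e1] at hm
      exact Nat.eq_of_mul_eq_mul_left (Nat.pos_of_ne_zero hu0') (hm.trans hm'.symm)
    exact Prod.ext e1 e2
  have h2 : ∑ x ∈ F, Real.log (x.1.minFac : ℕ) =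
      ∑ q ∈ F.image (fun x : ℕ × ℕ => x.1.minFac), Real.log (q : ℕ) := by
    rw [Finset.sum_image hinj]
  rw [h2]
  apply Finset.sum_le_sum_of_subset_of_nonneg
  · intro q hq
    obtain ⟨x, hx, rfl⟩ := Finset.mem_image.1 hq
    rw [hF, Finset.mem_filter] at hx
    obtain ⟨hx, -, hp⟩ := hx
    obtain ⟨hm, -⟩ := Nat.mem_divisorsAntidiagonal.1 hx
    refine Nat.mem_primeFactors.2 ⟨Nat.minFac_prime hp.ne_one, ?_, hn⟩
    exact (Nat.minFac_dvd x.1).trans ⟨x.2, hm.symm⟩
  · intro q _ _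
    exact Real.log_natCast_nonneg _

/-- If the first convolution does not vanish then `n` has at most `a + 1` prime factors. -/
lemma card_le (hV : VnuStatement) (S : Finset ℕ) (a n : ℕ) (hn : n ≠ 0)
    (h : (La * pS S ^ a) n ≠ 0) : n.primeFactors.card ≤ a + 1 := by
  rw [ArithmeticFunction.mul_apply] at h
  obtain ⟨x, hx, hx0⟩ := Finset.exists_ne_zero_of_sum_ne_zero h
  obtain ⟨hm, -⟩ := Nat.mem_divisorsAntidiagonal.1 hx
  have h1 : La x.1 ≠ 0 := left_ne_zero_of_mul hx0
  have h2 : (pS S ^ a) x.2 ≠ 0 := right_ne_zero_of_mul hx0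
  have hpp : IsPrimePow x.1 := ArithmeticFunction.vonMangoldt_ne_zero_iff.1 h1
  have hu0 : x.1 ≠ 0 := hpp.ne_zero
  have hv0 : x.2 ≠ 0 := by
    intro h
    rw [h, mul_zero] at hm
    exact hn hm.symm
  have e2 := hV.1 S a x.2 hv0
  have c2 : cardFactors x.2 = a := by
    by_contra hc
    rw [if_neg (fun h => hc h.2)] at e2
    exact h2 e2
  have h3 : x.1.primeFactors.card ≤ 1 := by
    obtain ⟨q, i, hq, hi, hqi⟩ := hpp
    rw [← hqi, Nat.primeFactors_prime_pow hi.ne' hq.nat_prime]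
    simp
  have h4 : x.2.primeFactors.card ≤ a := by
    rw [← c2]
    rw [ArithmeticFunction.cardFactors_apply]
    exact List.toFinset_card_le _
  rw [← hm, Nat.primeFactors_mul hu0 hv0]
  exact (Finset.card_union_le _ _).trans (by omega)

/-- The sum with the second convolution bounded. -/
lemma main (hV : VnuStatement) (hP : PsmStatement) (hM : L.MerStatement) (a b : ℕ) :
    ∃ C : ℝ, 0 < C ∧ ∀ (y : ℝ) (N : ℕ), 3 ≤ y → 1 ≤ rs (prs 1 y) →
    ∑ n ∈ (Finset.Icc 1 N).filter (fun n => n.primeFactors ⊆ prs 1 y),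
      (La * pS (prs 1 y) ^ a) n * (La * pS (prs 1 y) ^ b) n / (n : ℝ) ≤
        C * Real.log y ^ 2 * rs (prs 1 y) ^ a := by
  classical
  obtain ⟨C0, hC0, hM1, -, hM3⟩ := hM
  refine ⟨(b.factorial : ℝ) * ((a : ℝ) + 1) * (1 + 2 * C0), by positivity, ?_⟩
  intro y N hy hr
  set S := prs 1 y with hS
  set r := rs S with hrdef
  have hlog : 1 ≤ Real.log y := by
    rw [Real.le_log_iff_exp_le (by linarith)]
    have := Real.exp_one_lt_d9
    linarith
  have hlog0 : 0 ≤ Real.log y := by linarith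
  set K : ℝ := (b.factorial : ℝ) * (((a : ℝ) + 1) * Real.log y) with hK
  have hK0 : 0 ≤ K := by rw [hK]; positivity
  set F : ℕ → ℝ := fun u => if u.primeFactors ⊆ S then L.w1 u else 0 with hF
  set G : ℕ → ℝ := fun v => (pS S ^ a) v / (v : ℝ) with hG
  have hw0 : ∀ n, 0 ≤ L.w1 n := fun n =>
    div_nonneg ArithmeticFunction.vonMangoldt_nonneg (Nat.cast_nonneg _)
  have hF0 : ∀ n, 0 ≤ F n := by
    intro n
    rw [hF]
    dsimp only
    split_ifs
    · exact hw0 n
    · exact le_rfl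
  have hG0 : ∀ n, 0 ≤ G n := fun n => div_nonneg (pS_pow_nonneg hV _ _ _) (Nat.cast_nonneg _)
  have hterm : ∀ n ∈ (Finset.Icc 1 N).filter (fun n => n.primeFactors ⊆ S),
      (La * pS S ^ a) n * (La * pS S ^ b) n / (n : ℝ) ≤
      K * ∑ x ∈ n.divisorsAntidiagonal, F x.1 * G x.2 := by
    intro n hn
    obtain ⟨hnI, hnS⟩ := Finset.mem_filter.1 hn
    have hn0 : n ≠ 0 := by
      have := (Finset.mem_Icc.1 hnI).1
      omega
    have h1 : (La * pS S ^ a) n / (n : ℝ) = ∑ x ∈ n.divisorsAntidiagonal, F x.1 * G x.2 := by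
      rw [ArithmeticFunction.mul_apply, Finset.sum_div]
      apply Finset.sum_congr rfl
      intro x hx
      obtain ⟨hx1, -⟩ := Nat.mem_divisorsAntidiagonal.1 hx
      have h3 : (n : ℝ) = (x.1 : ℝ) * (x.2 : ℝ) := by
        rw [← hx1]
        push_cast
        ring
      have h4 : x.1.primeFactors ⊆ S :=
        (Nat.primeFactors_mono ⟨x.2, hx1.symm⟩ hn0).trans hnS
      rw [hF, hG]
      dsimp only
      rw [if_pos h4, h3, ← div_mul_div_comm]
      rfl
    have h2 : (La * pS S ^ a) n * (La * pS S ^ b) n ≤ (La * pS S ^ a) n * K := by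
      by_cases h0 : (La * pS S ^ a) n = 0
      · rw [h0, zero_mul, zero_mul]
      refine mul_le_mul_of_nonneg_left ?_ (conv_nonneg hV S a n)
      refine (conv_le hV S b n hn0).trans ?_
      rw [hK]
      refine mul_le_mul_of_nonneg_left ?_ (Nat.cast_nonneg _)
      have h5 : ∀ q ∈ n.primeFactors, Real.log q ≤ Real.log y := by
        intro q hq
        have h6 : (q : ℝ) ≤ y := mem_prs_le y q (by linarith) (hnS hq)
        have h7 : 0 < (q : ℝ) := Nat.cast_pos.2 (Nat.pos_of_mem_primeFactors hq)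
        exact Real.log_le_log h7 h6
      have h6 : (n.primeFactors.card : ℝ) ≤ (a : ℝ) + 1 := by
        exact_mod_cast card_le hV S a n hn0 h0
      calc ∑ q ∈ n.primeFactors, Real.log q ≤ ∑ q ∈ n.primeFactors, Real.log y :=
            Finset.sum_le_sum h5
        _ = (n.primeFactors.card : ℝ) * Real.log y := by
            rw [Finset.sum_const, nsmul_eq_mul]
        _ ≤ ((a : ℝ) + 1) * Real.log y := mul_le_mul_of_nonneg_right h6 hlog0
    calc (La * pS S ^ a) n * (La * pS S ^ b) n / (n : ℝ) ≤ (La * pS S ^ a) n * K / (n : ℝ) := by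
          gcongr
      _ = K * ((La * pS S ^ a) n / (n : ℝ)) := by ring
      _ = _ := by rw [h1]
  have hsumF : ∑ u ∈ Finset.Icc 1 N, F u ≤ (1 + 2 * C0) * Real.log y := by
    have hy1 : (1 : ℝ) ≤ y := by linarith
    have h3 := (abs_le.1 (hM1 y hy1)).2
    have h4 : ∀ u ∈ Finset.Icc 1 N, F u ≤ (if u ∈ Finset.Icc 1 ⌊y⌋₊ then L.w1 u else 0) +
        (if ¬ u.Prime then L.w1 u else 0) := by
      intro u hu
      have hA : 0 ≤ (if u ∈ Finset.Icc 1 ⌊y⌋₊ then L.w1 u else 0) := by
        split_ifs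
        · exact hw0 u
        · exact le_rfl
      have hB : 0 ≤ (if ¬ u.Prime then L.w1 u else 0) := by
        split_ifs
        · exact le_rfl
        · exact hw0 u
      rw [hF]
      dsimp only
      by_cases hc : u.primeFactors ⊆ S
      · rw [if_pos hc]
        by_cases hp : u.Prime
        · have h5 : u ∈ S := hc (Nat.mem_primeFactors.2 ⟨hp, dvd_rfl, hp.ne_zero⟩)
          have h6 : (u : ℝ) ≤ y := mem_prs_le y u (by linarith) h5
          have h7 : u ∈ Finset.Icc 1 ⌊y⌋₊ :=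
            Finset.mem_Icc.2 ⟨hp.one_le, Nat.le_floor h6⟩
          rw [if_pos h7]
          linarith
        · rw [if_pos hp]
          linarith
      · rw [if_neg hc]
        linarith
    have h5 : ∑ u ∈ Finset.Icc 1 N, (if u ∈ Finset.Icc 1 ⌊y⌋₊ then L.w1 u else 0) ≤
        ∑ u ∈ Finset.Icc 1 ⌊y⌋₊, L.w1 u := by
      rw [← Finset.sum_filter]
      apply Finset.sum_le_sum_of_subset_of_nonneg
      · intro u hu
        exact (Finset.mem_filter.1 hu).2
      · intro u _ _
        exact hw0 u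
    have h6 : ∑ u ∈ Finset.Icc 1 N, (if ¬ u.Prime then L.w1 u else 0) ≤ C0 := by
      rw [← Finset.sum_filter]
      exact hM3 N
    have h7 : C0 ≤ C0 * Real.log y := le_mul_of_one_le_right hC0.le hlog
    calc ∑ u ∈ Finset.Icc 1 N, F u ≤ ∑ u ∈ Finset.Icc 1 N,
          ((if u ∈ Finset.Icc 1 ⌊y⌋₊ then L.w1 u else 0) +
            (if ¬ u.Prime then L.w1 u else 0)) := Finset.sum_le_sum h4
      _ ≤ (Real.log y + C0) + C0 := by
          rw [Finset.sum_add_distrib]
          linarith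
      _ ≤ (1 + 2 * C0) * Real.log y := by linarith
  have hsumG : ∑ v ∈ Finset.Icc 1 N, G v ≤ r ^ a :=
    sum_le_hasSum _ (fun v _ => hG0 v) (hP.1 S a (isPr_prs 1 y))
  have hsumG0 : 0 ≤ ∑ v ∈ Finset.Icc 1 N, G v := Finset.sum_nonneg (fun v _ => hG0 v)
  have hdouble : ∑ n ∈ (Finset.Icc 1 N).filter (fun n => n.primeFactors ⊆ S),
      ∑ x ∈ n.divisorsAntidiagonal, F x.1 * G x.2 ≤
      (∑ u ∈ Finset.Icc 1 N, F u) * ∑ v ∈ Finset.Icc 1 N, G v := by
    refine le_trans ?_ (double F G hF0 hG0 N)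
    apply Finset.sum_le_sum_of_subset_of_nonneg (Finset.filter_subset _ _)
    intro n _ _
    exact Finset.sum_nonneg (fun x _ => mul_nonneg (hF0 _) (hG0 _))
  calc ∑ n ∈ (Finset.Icc 1 N).filter (fun n => n.primeFactors ⊆ S),
        (La * pS S ^ a) n * (La * pS S ^ b) n / (n : ℝ)
      ≤ ∑ n ∈ (Finset.Icc 1 N).filter (fun n => n.primeFactors ⊆ S),
        K * ∑ x ∈ n.divisorsAntidiagonal, F x.1 * G x.2 := Finset.sum_le_sum hterm
    _ = K * ∑ n ∈ (Finset.Icc 1 N).filter (fun n => n.primeFactors ⊆ S),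
        ∑ x ∈ n.divisorsAntidiagonal, F x.1 * G x.2 := by rw [Finset.mul_sum]
    _ ≤ K * ((∑ u ∈ Finset.Icc 1 N, F u) * ∑ v ∈ Finset.Icc 1 N, G v) :=
        mul_le_mul_of_nonneg_left hdouble hK0
    _ ≤ K * (((1 + 2 * C0) * Real.log y) * r ^ a) := by
        refine mul_le_mul_of_nonneg_left ?_ hK0
        exact mul_le_mul hsumF hsumG hsumG0 (by positivity)
    _ = (b.factorial : ℝ) * ((a : ℝ) + 1) * (1 + 2 * C0) * Real.log y ^ 2 * r ^ a := by
        rw [hK]
        ring

end La2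

/-- LA2: sums with two von Mangoldt functions on the numbers composed of small primes. -/
theorem la2 (hV : VnuStatement) (hP : PsmStatement) (hM : L.MerStatement) : La2Statement := by
  intro a b
  rcases le_total a b with h | h
  · obtain ⟨C, hC, h1⟩ := La2.main hV hP hM a b
    refine ⟨C, hC, ?_⟩
    rw [min_eq_left h]
    exact h1
  · obtain ⟨C, hC, h1⟩ := La2.main hV hP hM b a
    refine ⟨C, hC, ?_⟩
    rw [min_eq_right h]
    intro y N hy hr
    refine le_trans (le_of_eq ?_) (h1 y N hy hr)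
    apply Finset.sum_congr rfl
    intro n _
    rw [mul_comm ((La * pS (prs 1 y) ^ a) n)]

end Pool.Agent.Lib.MP_6bc78b_nt.MS.GL.H15
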